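import Mathlib
import Pool.Agent.H43.G.R_pool_sql_team_seeded_3997aac3.Q240.KS.Stm2

/-!
# Project KT (MP_768c9c_nt, number theory part): statements with complete proofs

Continuation of `Pool/Agent/Q240/KS` (files `Defs`, `Stm1`, `Stm2`; all statements there are proved on main). New tools:
Heath-Brown's mean value `RT` and the fourth moment `M4` of smooth factors (helper240). The optimisation of exponents is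
first proved in an exact form (`OPTX`, no epsilons), the form with epsilons (`OPTS`) follows by compactness (`CPT`).
Numerical constants are safe but do not change them without care.
-/

set_option autoImplicit false

namespace Pool.Agent.Q278.KT

open Finset Pool.Agent.H376R2.MR Pool.Agent.Q240.KS

/-! ### Inputs (helper240) -/

/-- **RT**: Heath-Brown's mean value (project of helper240) -/
def S_RT : Prop := ∀ ε : ℝ, 0 < ε → ∃ C : ℝ, 1 ≤ C ∧ ∀ (K : ℕ) (v M A : ℝ) (U : Finset ℝ) (c : ℝ → ℂ)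
  (s : Finset ℕ) (b : ℕ → ℂ), 1 ≤ K → 1 ≤ M → 0 ≤ A → (∀ u ∈ U, v ≤ u ∧ u ≤ v + 1) →
  (∀ u ∈ U, ∀ u' ∈ U, u ≠ u' → 1 / (3 * (K : ℝ)) ≤ |u - u'|) → (∀ u ∈ U, ‖c u‖ ≤ 1) →
  (∀ n ∈ s, 1 ≤ n ∧ |Real.log n - Real.log M| ≤ 1 / 2 ∧ ‖b n‖ ≤ A / n) →
  ∑ k ∈ FK K, ‖(∑ u ∈ U, c u * Complex.exp (((k : ℝ) * u : ℝ) * Complex.I)) * DP s b k‖ ^ 2 ≤
    C * (K : ℝ) ^ ε * A ^ 2 *
      ((U.card : ℝ) ^ 2 + K * U.card / M + (U.card : ℝ) ^ (7 / 4 : ℝ) * (K : ℝ) ^ (3 / 4 : ℝ) / M)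

/-- **M4**: fourth moment of the smooth factors (project of helper240) -/
def S_M4 : Prop := ∀ ε : ℝ, 0 < ε → ∃ C : ℝ, 1 ≤ C ∧ ∀ (z : ℕ) (t : Fin 3) (d : ℕ) (T V : ℝ) (L : Finset ℤ),
  t ≠ 0 → 1 ≤ T → 0 < V → (∀ k ∈ L, T ≤ |(k : ℝ)| ∧ |(k : ℝ)| ≤ 2 * T ∧ V ≤ ‖PF z t d k‖) →
  (L.card : ℝ) ≤ C * Real.exp (ε * d) * T ^ ε * (T * Real.exp (-((d : ℝ) / 10)) + 1 / T ^ 7) / V ^ 4

/-- **NEAR2**: `S_NEAR` for `|k| ≤ e^{0.82 Y}` (project of helper240) -/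
def S_NEAR2 : Prop := ∀ ε₃ : ℝ, 0 < ε₃ → ∃ ε₀ : ℝ, 0 < ε₀ ∧ ε₀ ≤ 1 / 100 ∧ ∀ B : ℕ, ∃ Y₀ : ℝ, ∀ Y : ℝ, Y₀ ≤ Y →
  ∀ d ∈ DY Y, ∀ L : Finset ℤ,
  (∀ k ∈ L, Real.exp (ε₃ * Y) ≤ |(k : ℝ)| ∧ |(k : ℝ)| ≤ Real.exp (0.82 * Y)) →
  (∀ k ∈ L, ∀ i, Real.exp (-(ε₀ * Y)) ≤ ‖PF (zY Y) (ty i) (d i) k‖) →
  ∑ k ∈ L, ‖EE (zY Y) d k‖ ≤ 1 / Y ^ B

/-! ### The optimisation -/

/-- the constraints on the relative lengths `al i`, the exponents `ka i` of the sizes of the factors, the exponent `lam` of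
the height and the exponent `R` of the number of frequencies, with precision `e` -/
structure Con (lam0 e δ : ℝ) (al ka : Fin 10 → ℝ) (lam R : ℝ) : Prop where
  nn : ∀ i, 0 ≤ al i ∧ 0 ≤ ka i
  one : |∑ i, al i - 1| ≤ e
  la : 0 ≤ lam ∧ lam ≤ lam0 + e
  R0 : 0 ≤ R ∧ R ≤ lam + e
  mob : ∀ i : Fin 10, (i : ℕ) < 5 → al i ≤ 1 / 5 + e
  smo : ∀ i : Fin 10, 5 ≤ (i : ℕ) → al i ≤ lam + e ∧ al i / 2 - lam / 6 ≤ ka i + e ∧ al i - lam / 2 ≤ ka i + e ∧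
    R ≤ lam - 2 * al i + 4 * ka i + e
  lv : ∀ i : Fin 10, δ ≤ al i → ∀ m : ℕ, 1 ≤ m → m ≤ 100000 →
    R ≤ max (2 * m * ka i) (min (lam - m * al i + 2 * m * ka i) (lam - 2 * m * al i + 6 * m * ka i)) + e

/-- the exponent of the square of the part of the product outside `S`, times the number of frequencies -/
noncomputable def gg (ka : Fin 10 → ℝ) (R : ℝ) (S : Finset (Fin 10)) : ℝ := R - 2 * (∑ i, ka i - ∑ i ∈ S, ka i)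

/-- the mean value `RT` applied to the factors in `S` is successful, with precision `x` -/
def Win (lam0 e0 x : ℝ) (al ka : Fin 10 → ℝ) (R : ℝ) (S : Finset (Fin 10)) : Prop :=
  gg ka R S ≤ x ∧ gg ka R S + lam0 - ∑ i ∈ S, al i ≤ e0 + x ∧
    4 * (gg ka R S + 3 / 4 * lam0 - ∑ i ∈ S, al i) ≤ e0 + x

/-- the three ways to succeed: the frequencies contribute nothing, the large sieve, the mean value `RT` -/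
def Alt (lam0 e0 x : ℝ) (al ka : Fin 10 → ℝ) (R : ℝ) : Prop :=
  R ≤ ∑ i, ka i + x ∨ R ≤ 2 * ∑ i, ka i + e0 - lam0 + x ∨ ∃ S : Finset (Fin 10), Win lam0 e0 x al ka R S

/-- exact form -/
def OPTX (lam0 e0 : ℝ) : Prop := ∀ (al ka : Fin 10 → ℝ) (lam R : ℝ), Con lam0 0 (1 / 100000) al ka lam R →
  0 < ∑ i, ka i → ∃ x : ℝ, x < 0 ∧ Alt lam0 e0 x al ka R

/-- form with precision -/
def OPTS (lam0 e0 : ℝ) : Prop := ∀ ε₀ : ℝ, 0 < ε₀ → ∃ e : ℝ, 0 < e ∧ e ≤ 1 / 1000 ∧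
  ∀ (al ka : Fin 10 → ℝ) (lam R : ℝ), Con lam0 e (1 / 200000) al ka lam R → ε₀ ≤ ∑ i, ka i →
    Alt lam0 e0 (-e) al ka R

/-- **CPT** (compactness). Proof. If `∑ ka ≥ 3` then `R ≤ lam + e ≤ 1.003 ≤ ∑ ka - e`. Suppose that for every `n` the number
`e_n = 1/(n + 1000)` fails, with `(al^n, ka^n, lam^n, R^n)`; then `∑ ka^n < 3`, all coordinates lie in `[0, 3]`, and a
subsequence converges to `(al, ka, lam, R)` (compactness of a product of 22 intervals). The limit satisfies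
`Con lam0 0 (1/100000)`: all conditions are closed, and if `al i ≥ 1/100000` then `al^n i ≥ 1/200000` for large `n`, so the
inequalities `lv` hold for large `n` and pass to the limit (`max`, `min` are continuous; `m` is fixed). Also `∑ ka ≥ ε₀ > 0`.
By `OPTX` there is `x < 0` with `Alt x` at the limit, so `Alt (x/2)` holds along the subsequence for large `n` (the three
alternatives are finite unions and intersections of inequalities between continuous functions), and `x/2 ≤ -e_n` for large `n`: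
contradiction. -/
def S_CPT : Prop := ∀ lam0 e0 : ℝ, 0 ≤ lam0 → lam0 ≤ 1 → OPTX lam0 e0 → OPTS lam0 e0

/-- **PRE** (greedy prefix, for the order by `ka i / al i`). Proof. Call `S ⊆ I` initial if `ka i * al j ≤ ka j * al i` for all
`i ∈ S`, `j ∈ I \ S`. The empty set is initial and has `∑ al = 0 < t`. Take an initial `S` with `∑_S al < t` of maximal
cardinality; `S ≠ I` as `t ≤ ∑_I al`. Let `j ∈ I \ S` have minimal `ka j / al j`. Then `insert j S` is initial (division by the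
positive `al`), so by maximality `t ≤ ∑_S al + al j`. -/
def S_PRE : Prop := ∀ (I : Finset (Fin 10)) (al ka : Fin 10 → ℝ) (t : ℝ), (∀ i ∈ I, 0 < al i) → 0 < t →
  t ≤ ∑ i ∈ I, al i → ∃ S ⊆ I, ∃ j ∈ I \ S, ∑ i ∈ S, al i < t ∧ t ≤ ∑ i ∈ S, al i + al j ∧
    (∀ i ∈ S, ka i * al j ≤ ka j * al i) ∧ ∀ i ∈ I \ S, ka j * al i ≤ ka i * al j

/-- **PR2** (the form in which `PRE` is used; `kap` is the total exponent, `c = kap / 0.9999`, `mu = ∑_S al`, `k = ∑_S ka`).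
Proof (from PRE). `I = {i : al i ≥ 1/100000}`; `∑_I al ≥ 1 - 10/100000 = 0.9999`. Summing `ka i al j ≤ ka j al i` over `i ∈ S`:
`k al j ≤ ka j mu`; summing `ka j al i ≤ ka i al j` over `i ∈ I \ S`: `ka j (∑_I al - mu) ≤ (∑_I ka - k) al j`, which gives
the last claim (`∑_I ka ≤ kap`, `∑_I al ≥ 0.9999`, `mu < t ≤ 0.9999`, `ka j ≥ 0`). Multiply the first by
`∑_I al - mu ≥ 0` and the second by `mu ≥ 0`: `k al j (∑_I al - mu) ≤ ka j mu (∑_I al - mu) ≤ mu (∑_I ka - k) al j`; divide by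
`al j > 0`: `k ∑_I al ≤ mu ∑_I ka ≤ mu kap`, so `0.9999 k ≤ mu kap`. -/
def S_PR2 : Prop := ∀ (al ka : Fin 10 → ℝ) (t : ℝ), (∀ i, 0 ≤ al i ∧ 0 ≤ ka i) → ∑ i, al i = 1 → 0 < t → t ≤ 0.9999 →
  ∃ (S : Finset (Fin 10)) (j : Fin 10), j ∉ S ∧ 1 / 100000 ≤ al j ∧ ∑ i ∈ S, al i < t ∧ t ≤ ∑ i ∈ S, al i + al j ∧
    0.9999 * ∑ i ∈ S, ka i ≤ (∑ i ∈ S, al i) * ∑ i, ka i ∧
    ka j * (0.9999 - ∑ i ∈ S, al i) ≤ (∑ i, ka i - ∑ i ∈ S, ka i) * al j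

/-- **MINF** (the factor with the smallest quotient). Proof. Let `I = {i : al i ≥ 1/100000}`, `∑_I al ≥ 0.9999`. If
`0.9999 ka i > kap al i` for all `i ∈ I` then, `I` being nonempty, `0.9999 kap ≥ 0.9999 ∑_I ka > kap ∑_I al ≥ 0.9999 kap`. -/
def S_MINF : Prop := ∀ (al ka : Fin 10 → ℝ), (∀ i, 0 ≤ al i ∧ 0 ≤ ka i) → ∑ i, al i = 1 →
  ∃ i : Fin 10, 1 / 100000 ≤ al i ∧ 0.9999 * ka i ≤ (∑ i, ka i) * al i

/-- **LVC** (large values of the smallest factor). Proof. Apply `lv`; the right side is nondecreasing in `ka i ≤ c al i` and in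
`lam ≤ lam0` (`b = m al i`). -/
def S_LVC : Prop := ∀ (lam0 : ℝ) (al ka : Fin 10 → ℝ) (lam R c : ℝ) (i : Fin 10) (m : ℕ),
  Con lam0 0 (1 / 100000) al ka lam R → 1 / 100000 ≤ al i → ka i ≤ c * al i → 1 ≤ m → m ≤ 100000 →
  R ≤ max (2 * (m * al i) * c)
    (min (lam0 - (m * al i) + 2 * (m * al i) * c) (lam0 - 2 * (m * al i) + 6 * (m * al i) * c))

/-- **MUL** (a multiple in an interval). Proof. The least `m` with `m a ≥ s` is `≥ 1` and has `m a < s + a ≤ t`; `m ≤ t / a`. -/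
def S_MUL : Prop := ∀ a s t : ℝ, 1 / 100000 ≤ a → 0 < s → s + a ≤ t → t ≤ 1 →
  ∃ m : ℕ, 1 ≤ m ∧ m ≤ 100000 ∧ s ≤ m * a ∧ m * a ≤ t

/-- **XE**: `OPTX (13/16) (13/16)`. Proof. `κ = ∑ ka > 0`, `c = κ/0.9999`, `i` from MINF, `a = al i`, so `ka i ≤ c a`. Suppose
`R ≥ 2κ = 1.9998 c` (otherwise the second alternative holds with `x = R - 2κ`). As `R ≤ 13/16`, `c ≤ 0.4064`. By LVC for
`b = m a`: `R ≤ 2bc` or [`R ≤ 0.8125 - b + 2bc` and `R ≤ 0.8125 - 2b + 6bc`]. If `b ≤ 0.9998` the first is impossible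
(`c > 0`), so
 (1) `1.9998 c ≤ 0.8125 - b + 2bc`, (2) `1.9998 c ≤ 0.8125 - 2b + 6bc`.
(A) If some multiple `b = ma` lies in `[0.8125, 0.9998]`: (1) gives `c (1.9998 - 2b) ≤ 0.8125 - b ≤ 0` with
`1.9998 - 2b > 0`: contradiction. Such `m` exists if `a ≤ 0.1873` (MUL), `0.1625 ≤ a ≤ 0.19996` (`m = 5`),
`0.203125 ≤ a ≤ 0.24995` (`m = 4`), `0.27084 ≤ a ≤ 0.33326` (`m = 3`), `0.40625 ≤ a ≤ 0.4999` (`m = 2`),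
`0.8125 ≤ a ≤ 0.9998` (`m = 1`).
(B) `0.19996 < a < 0.203125`: `m = 4`, `b ∈ [0.7998, 0.8125]`. (1): `c (1.9998 - 2b) ≤ 0.8125 - b` forces `c ≤ 0.032` (as
`1.9998 - 2b ≥ 0.3748`, and `0.8125 - b ≤ 0.032 (1.9998 - 2b)` is linear, true at both ends). (2):
`2b - 0.8125 ≤ c (6b - 1.9998) ≤ 0.032 (6b - 1.9998)`, false (linear in `b`).
(C) `0.24995 < a < 0.27084`: `m = 3`, `b ∈ [0.7498, 0.8126]`: (1) forces `c ≤ 0.126`, (2) forces `c ≥ 0.274`.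
(D) `0.33326 < a < 0.40625`: `m = 2`, `b ∈ [0.6665, 0.8125]`: (1) forces `c ≤ 0.22`, (2) forces `c ≥ 0.26`.
(E) `0.4999 < a ≤ 0.8125`: `i` is smooth (`al i ≤ 1/5` for the others), so `R ≤ 0.8125 - 2a + 4 ka i`, i.e.
`c (4a - 1.9998) ≥ 2a - 0.8125`; but `c (4a - 1.9998) ≤ 0.4064 (4a - 1.9998) = 1.6256 a - 0.81271... < 2a - 0.8125`
(if `4a < 1.9998` the left side is `≤ 0`).
(F) `a > 0.8125` is impossible (`al i ≤ lam ≤ 13/16` for smooth factors). -/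
def S_XE : Prop := OPTX (13 / 16) (13 / 16)

/-- **XW**: `OPTX (1/2) 0.306`. Proof. `κ = ∑ ka > 0`, `c = κ/0.9999`, `i` from MINF, `a = al i`, `ka i ≤ c a`. Suppose
 (N1) `R ≥ κ = 0.9999 c` and (N2) `R ≥ 2κ - 0.194 = 1.9998 c - 0.194`
(otherwise one of the first two alternatives holds with a suitable `x < 0`). `R ≤ 1/2`, so (N2) `c ≤ 0.3471`. By LVC, for
`b = m a`: `R ≤ 2bc` or [(1) `R ≤ 1/2 - b + 2bc` and (2) `R ≤ 1/2 - 2b + 6bc`].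
(S3) `a < 0.2505`: if `a ≥ 0.2505 > 1/5` then `i` is smooth, `R ≤ 1/2 - 2a + 4ka i ≤ 1/2 - 2a + 4ac`, so with (N1)
`2a - 1/2 ≤ c (4a - 0.9999) ≤ 0.348 (4a - 0.9999)`, i.e. `0.608 a ≤ 0.15204`, false.
(S4) `κ > 0.16`. Suppose `κ ≤ 0.16`, `c ≤ 0.16002`. If some multiple `b = ma ∈ [0.328, 0.4995]`: `2bc ≤ 0.999 c < R`, and (2) gives
`0.9999 c ≤ 1/2 - 2b + 6bc`, i.e. `2b - 1/2 ≤ c (6b - 0.9999) ≤ 0.16002 (6b - 0.9999)`, false for `b ≥ 0.328`. Such `m` exists if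
`a ≤ 0.1715` (MUL), or `0.164 ≤ a ≤ 0.24975` (`m = 2`). If `0.24975 < a < 0.2505`, `i` is smooth and
`a c ≥ ka i ≥ a/2 - 1/12`, `c ≥ 1/2 - 1/(12 a) > 0.166`.
(S5) `c < 0.2215`. Suppose `c ≥ 0.2215`.
 (i) `c ≤ 1/4`: let `t = 1/(4 - 6c) ∈ [0.374, 0.4]`. If `b = ma ∈ [t, 3t/2]` then `2bc ≤ 3tc` and `1/2 - b(2 - 6c) ≤ 1/2 - t (2 - 6c) = 3tc`
(because `t (4 - 6c) = 1`... `1/2 = t (4 - 6c)/2 = 2t - 3tc`), so `R ≤ 3tc = 3c/(4 - 6c)`. Such `m` exists: `a ≤ t/2` (MUL) or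
`t/2 ≤ a ≤ 0.2505 ≤ 3t/4` (`m = 2`). With (N2): `(1.9998 c - 0.194)(4 - 6c) ≤ 3c`, i.e.
`-11.9988 c² + 6.1632 c - 0.776 ≤ 0`, false on `[0.2215, 0.25]` (concave, positive at both ends: `0.00046`, `0.0148`).
 (ii) `c ≥ 1/4`: let `t = 1/(2 (1 + c)) ∈ [0.371, 0.4]`. If `b = ma ∈ [t, 3t/2]` then `2bc ≤ 3tc` and `1/2 - b (1 - 2c) ≤ 1/2 - t (1 - 2c) =
3tc`, so `R ≤ 3tc = 3c/(2(1 + c))` by (1). Existence of `m` as in (i). With (N2): `(1.9998 c - 0.194)(2 + 2c) ≤ 3c`, i.e.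
`3.9996 c² + 0.6116 c - 0.388 ≤ 0`, false for `c ≥ 1/4`.
(S6) Now `0.16 < κ ≤ c < 0.2215`. Claim `R ≤ 3c/(4 - 6c)` or `R ≤ 1.002 c`. Let `t = 1/(4 - 6c) ∈ [0.3289, 0.3745]`. If
`a ≤ 3t/4` a multiple `b ∈ [t, 3t/2]` exists (MUL if `a ≤ t/2`, `m = 2` otherwise) and `R ≤ 3tc` as in (S5)(i). Otherwise
`3t/4 < a < 0.2505`, `m = 2`, `b = 2a ∈ [3t/2, 0.501]`, `2bc ≤ 1.002 c` and `1/2 - b(2 - 6c) ≤ 3tc`.
(S7) Let `D = 2κ - R = 1.9998 c - R > 0` and `th = D/(2c) ≤ 0.9999` (`D ≤ κ = 0.9999 c` by (N1)). Apply PR2 with `t = th`: `S`, `j`, `μ = ∑_S al`,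
`k = ∑_S ka ≤ c μ`, `μ < th ≤ μ + β`, `β = al j`. Let `g = gg ka R S = R - 2κ + 2k ≤ -D + 2cμ < 0`. It suffices to show
`g - μ < -0.2985`: then `Win` holds with a suitable `x < 0` (`g + 1/2 - μ < 0.2015 < 0.306`,
`4 (g + 3/8 - μ) < 4 (0.0765) = 0.306`).
 (i) `β ≤ 1/4`, or `μ ≥ th - 1/4`: in both cases `μ ≥ th - 1/4`, and `g - μ ≤ -D - (1 - 2c) μ`, so it suffices that
`D + (1 - 2c)(D/(2c) - 1/4) > 0.2985`, i.e. `D > 0.597 c + (1 - 2c) c / 2 = 1.097 c - c²`. If `R ≤ 1.002 c`: `D ≥ 0.9978 c` and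
`0.9978 > 1.097 - c` for `c > 0.0992`. If `R ≤ 3c/(4 - 6c)`: `(0.9028 + c)(4 - 6c) > 3`, i.e. `0.6112 - 1.4168 c - 6c² > 0`, true for
`c ≤ 0.2215` (value `0.0030` there).
 (ii) `β > 1/4` and `μ < th - 1/4`: `j` is smooth (`β > 1/5`), so `R ≤ 1/2 - 2β + 4 ka j`, and
`ka j (0.9999 - μ) ≤ (κ - k) β` by PR2, so `g = R - 2 (κ - k) ≤ R - 2 (ka j/β) (0.9999 - μ) ≤
R - (0.9999 - μ)(1 - (1/2 - R)/(2β))`. Hence `g - μ + 0.2985 ≤ R - 0.7014 + (0.9999 - μ)(1/2 - R)/(2β)`. Now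
`β ≥ th - μ > 1/4`, `th ≥ 0.9999 - R/(2c)`, and `(0.9999 - μ)/(2β) ≤ (0.9999 - μ)/(2 (th - μ)) ≤ 2 (1.2499 - th) ≤ 1/2 + R/c` (the
middle quotient `1/2 + (0.9999 - th)/(2(th - μ))` with `th - μ ≥ 1/4` and `0.9999 - th ≥ 0`). So it suffices that
`(1/2 + R/c)(1/2 - R) < 0.7014 - R`, i.e. `R (c/2 + 1/2 - R) < 0.4514 c`. The left side is increasing in `R ≤ 0.25`. If
`R ≤ 1.002 c`: `1.002 (1/2 - 0.502 c) < 0.4514` for `c ≥ 0.16`. If `R ≤ 3tc ≤ 0.249` (`t = 1/(4 - 6c)`):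
`3t (c/2 + 1/2 - 3tc) < 0.4514`, i.e. (multiply by `(4 - 6c)²`) `3 ((c/2 + 1/2)(4 - 6c) - 3c) < 0.4514 (4 - 6c)²`, i.e.
`6 - 12c - 9c² < 7.2224 - 21.6672 c + 16.2504 c²`, i.e. `25.2504 c² - 9.6672 c + 1.2224 > 0` (negative discriminant). -/
def S_XW : Prop := OPTX (1 / 2) 0.306

/-- **XV**: `OPTX 0.43 0.045`. Proof. `κ = ∑ ka > 0`, `c = κ/0.9999`, `i` from MINF, `a = al i`, `ka i ≤ c a`. Suppose
 (N1) `R ≥ κ = 0.9999 c` and (N2) `R ≥ 2κ - 0.385 = 1.9998 c - 0.385`.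
`R ≤ 0.43`, so `c ≤ 0.4077`. By LVC, for `b = m a`: `R ≤ 2bc` or [(1) `R ≤ 0.43 - b + 2bc` and (2) `R ≤ 0.43 - 2b + 6bc`].
(T1) `a < 0.2475`: otherwise `i` is smooth and with (N1) `2a - 0.43 ≤ c (4a - 0.9999)`. The left side is `≥ 0.065`. The right
side is `≤ 0` if `4a ≤ 0.9999`, else `≤ 0.4077 (4a - 0.9999)`, and `0.3692 a > 0.43 - 0.40766` for `a ≥ 0.2475`.
(T2) No multiple `b = ma` lies in `[0.361, 0.4995]`: otherwise `2bc ≤ 0.999 c < R`; (1): `0.9999 c ≤ 0.43 - b + 2bc`, i.e.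
`c (0.9999 - 2b) ≤ 0.43 - b`; (2): `2b - 0.43 ≤ c (6b - 0.9999)`. If `c ≥ 1/4`: (1) gives `0.249975 - b/2 ≤ 0.43 - b`,
`b ≤ 0.36005`. If `c ≤ 1/4`: (2) gives `2b - 0.43 ≤ 1.5 b - 0.249975`, `b ≤ 0.36005`.
 So by MUL `a > 0.1385`, and (`m = 3`) not `0.1385 ≤ a ≤ 0.1665`, and (`m = 2`) not `0.1805 ≤ a ≤ 0.24975`. Hence
`0.1665 < a < 0.1805`.
(T3) `m = 2`: `2bc = 4ac ≤ 0.722 c < R`, so (1), (2) hold with `b = 2a`: `R ≤ 0.43 - 2a (1 - 2c)`, `R ≤ 0.43 - 2a(2 - 6c)`. `m = 3`, `b = 3a ≥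
0.4995`: if `R > 6ac` then (1) `0.9999 c ≤ 0.43 - b + 2bc` and (2) `0.9999 c ≤ 0.43 - 2b + 6bc`; (1): `c (0.9999 - 2b) ≤ 0.43 - b`
with `b ∈ [0.4995, 0.5415]` forces `c ≥ 0.29` (if `0.9999 - 2b ≥ 0` then the left side is `≥ 0 > 0.43 - b`; else
`c ≥ (b - 0.43)/(2b - 0.9999) ≥ 0.1115/0.0831`), false. So `R ≤ 6ac`.
 From `a ≥ R/(6c)` (`c < 1/2`, and the second one only if `c < 1/3`): `3c R ≤ 1.29 c - R (1 - 2c)`, i.e. (3) `R (1 + c) ≤ 1.29 c`, and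
`3cR ≤ 1.29 c - R(2 - 6c)`, i.e. (4) `R (2 - 3c) ≤ 1.29 c`. With (N1): `0.9999 (1 + c) ≤ 1.29`, so `c ≤ 0.2902` (so (4) may be used)
and `0.9999 (2 - 3c) ≤ 1.29`, so `c ≥ 0.2366`. In particular `R/(2c) ≤ 0.516` (from (3) if `c ≥ 1/4`, from (4) if `c ≤ 1/4`).
(T4) Let `D = 2κ - R = 1.9998 c - R`, `th = D/(2c) = 0.9999 - R/(2c) ∈ [0.4839, 0.9999]`. Apply PR2 with `t = th`: `S`, `j`, `μ`, `k ≤ cμ`,
`μ < th ≤ μ + β`, `β = al j`; `g = R - 2κ + 2k ≤ -D + 2cμ < 0`. It suffices that `g - μ < -0.385` (then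
`g + 0.43 - μ < 0.045` and `4 (g + 0.3225 - μ) < -0.25`). Let `κ' = ka j`. By PR2, `g ≤ R - 2 (κ'/β)(0.9999 - μ)`.
 (i) `β ≤ 0.1805`: `μ ≥ th - 0.1805` and `g - μ ≤ -D - (1 - 2c)μ`; suffices `D + (1 - 2c)(D/(2c) - 0.1805) > 0.385`, i.e.
`D > 0.77 c + 0.361 c (1 - 2c) = 1.131 c - 0.722 c²`, i.e. `R < 0.8688 c + 0.722 c²`. If `c ≥ 1/4`, by (3) it suffices that
`1.29 < (0.8688 + 0.722 c)(1 + c)` (true: `1.3116` at `1/4`, increasing). If `c ≤ 1/4`, by (4) it suffices that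
`1.29 < (0.8688 + 0.722 c)(2 - 3c) = 1.7376 - 1.1624 c - 2.166 c²`, decreasing, `1.3116` at `1/4`.
 (ii) `0.1805 < β ≤ 1/5`: claim `κ' ≥ R β`. `lv` for `j`, `m = 2`, `b = 2β ∈ [0.361, 0.4]`: `R ≤ 4κ'` (then `κ' ≥ R/4 ≥ Rβ`) or
[`R ≤ 0.43 - b + 4κ'` and `R ≤ 0.43 - 2b + 12 κ'`]. If `κ' < Rβ = Rb/2`: `R < 0.43 - b + 2Rb` and `R < 0.43 - 2b + 6Rb`. If `R ≥ 1/4`: the
first gives `R (1 - 2b) < 0.43 - b`, `(1 - 2b)/4 < 0.43 - b`, `b < 0.36`. If `R ≤ 1/4`: the second gives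
`2b - 0.43 < R (6b - 1) ≤ (6b - 1)/4`, `b < 0.36`. Contradiction. So `g - μ + 0.385 ≤ R - 2R (0.9999 - μ) - μ + 0.385 =
0.385 - 0.9998 R - (1 - 2R) μ`, and `μ ≥ th - 1/5 ≥ 0.2839`, so it is `≤ 0.385 - 0.9998 R - 0.2839 (1 - 2R) = 0.1011 - 0.432 R < 0`
because `R ≥ 0.9999 c ≥ 0.2365`.
 (iii) `β > 1/5`: `j` is smooth: `κ' ≥ (R - 0.43 + 2β)/4`, so
`g - μ + 0.385 ≤ R + 0.385 - μ - (0.9999 - μ)(1 - (0.43 - R)/(2β)) = R - 0.6149 + (0.9999 - μ)(0.43 - R)/(2β)`, and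
`0.9999 - μ ≤ 0.9999 - th + β ≤ 0.516 + β`, `(0.516 + β)/(2β) ≤ 1.79`: it is `≤ R - 0.6149 + 1.79 (0.43 - R) = 0.1548 - 0.79 R < 0`
since `R ≥ 0.2365`. -/
def S_XV : Prop := OPTX 0.43 0.045

/-! ### From exponents to frequencies -/

/-- few frequencies with given sizes of the factors (`α_i = d_i / (20 Y)`) -/
def FAR2 (lam0 e0 : ℝ) : Prop := ∀ ε₃ ε₀ : ℝ, 0 < ε₃ → 0 < ε₀ → ε₀ ≤ 1 / 100 → ∃ ε' η Y₀ : ℝ, 0 < ε' ∧ ε' ≤ ε₀ ∧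
  0 < η ∧ ∀ Y : ℝ, Y₀ ≤ Y → ∀ d ∈ DY Y, ∀ T₁ : ℝ, Real.exp (ε₃ * Y) ≤ T₁ → T₁ ≤ Real.exp ((lam0 + η) * Y) →
  ∀ L : Finset ℤ, L.Nonempty → (∀ k ∈ L, T₁ ≤ |(k : ℝ)| ∧ |(k : ℝ)| < 2 * T₁) → ∀ κ : Fin 10 → ℝ, (∀ i, 0 ≤ κ i) →
  ε₀ ≤ ∑ i, κ i → (∀ k ∈ L, ∀ i, Real.exp (-((κ i + ε') * Y)) ≤ ‖PF (zY Y) (ty i) (d i) k‖) →
  ∃ R : ℝ, (L.card : ℝ) ≤ Real.exp (R * Y) ∧ Alt lam0 e0 (-η) (fun i => (d i : ℝ) / (20 * Y)) κ R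

/-- **FAR2** (from SB1, SB2, SB3, LVM, LVH, M4; compare with the proof of `S_FAR` in `Pool/Agent/Q278/KS/Far.lean`, which can be
adapted). Proof. Let `e₁` be the number `e` of `OPTS` for `ε₀`, `e = min (e₁, ε₃/4)` (note that `Con lam0 e δ` implies
`Con lam0 e₁ δ`), `ε' = min (e/10^8, ε₃/16, ε₀)`, `η = e/2`, `Y` large, `λ = log T₁ / Y ∈ [ε₃, lam0 + η]`, `α_i = d_i/(20 Y)`,
`R = log |L| / Y ≥ 0`. `|∑ α_i - 1| ≤ 1/Y`, `d_i ≤ 20 (Y + 1) ≤ 40 Y`, `|L| ≤ 4 T₁ + 2 ≤ 6 e^{λY}`, so `R ≤ λ + e`.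
(1) Suppose some `i ≥ 5` has `2 T₁ ≤ e^{d_i/20 - 1}`. By SB1, `e^{-(κ_i + ε')Y} ≤ C (1 + d_i)(T₁^{-2} + e^{-d_i/10}) ≤ C' Y e^{-2λY}`, so
`∑ κ ≥ κ_i ≥ 2λ - 2ε'` and `R ≤ λ + ε' ≤ ∑ κ - λ + 3ε' ≤ ∑ κ - ε₃ + 3ε' ≤ ∑ κ - η`: first alternative.
(2) Otherwise check `Con lam0 e (1/200000)`. `α_i ≤ λ + 2/Y ≤ λ + e` for `i ≥ 5`; `α_i ≤ 1/5 + e` for `i < 5` (`PF ≠ 0`, so some
`n ≤ zY Y ≤ e^{(Y+2)/5}` has `w (20 log n - d_i) > 0`, `d_i < 4 (Y + 2) + 1`). SB2: `κ_i ≥ α_i - λ/2 - 2ε'`. SB3 (with exponent `ε'/40`):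
`κ_i ≥ α_i/2 - λ/6 - 3ε'` if `α_i ≤ 2λ/3`, and if `α_i > 2λ/3` then `α_i/2 - λ/6 ≤ α_i - λ/2`. M4 (with exponent `ε'`,
`T = T₁`): `|L| ≤ C e^{ε' 40 Y} e^{ε' λY} (e^{(λ - 2α_i)Y} + e^{-7λY}) e^{4(κ_i + ε')Y}`, and
`-7λ ≤ λ - 2α_i` because `α_i ≤ λ + e ≤ 4λ`; so `R ≤ λ - 2α_i + 4κ_i + 50 ε'`. `lv`: for `α_i ≥ 1/200000`, `m ≤ 100000`,
`V = e^{-(κ_i + ε')Y}`, `K = ⌈2 T₁⌉ ≤ 3 T₁`: LVM and LVH with `ε = e/400` (`e^{ε d_i} ≤ e^{eY/10}`; the constants for all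
`m ≤ 100000` are bounded by one constant) give `R ≤ max (2mκ_i) (λ - mα_i + 2mκ_i) + e` and
`R ≤ max (2mκ_i) (λ - 2mα_i + 6mκ_i) + e` (the loss `6mε' ≤ 6·10^5 ε' ≤ e/100`).
By `OPTS`, `Alt lam0 e0 (-e₁)`, so `Alt lam0 e0 (-η)` (monotone in `x`). -/
def S_FAR2 : Prop := ∀ lam0 e0 : ℝ, 0 < lam0 → lam0 ≤ 1 → OPTS lam0 e0 → FAR2 lam0 e0

/-- **PRD**: a product of factors is one Dirichlet polynomial. Proof. As in the proof of TUP (`Pool/Agent/Q95/KS/TupA.lean`: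
`Lf_prod`, `prod_bound`; `Tup.lean`: `af_sup`, `supp_prod`, `gt_bound`), for the subset `S` instead of all indices:
`b n = ∑ ∏_{i ∈ S} cf z (ty i) (d i) (n_i)` over `n = ∏ n_i`, `s` the support: `|log n_i - d_i/20| < 1/20`, so
`|log n - ∑ d_i/20| ≤ 10/20`, and `|b n| ≤ ∏ (1 + d_i) τ(n)^{10}/n ≤ (40 Y)^{10} τ(n)^{10}/n ≤ e^{εY}/n` by the divisor bound. -/
def S_PRD : Prop := ∀ ε : ℝ, 0 < ε → ∃ Y₀ : ℝ, ∀ Y : ℝ, Y₀ ≤ Y → ∀ d ∈ DY Y, ∀ S : Finset (Fin 10),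
  ∃ (s : Finset ℕ) (b : ℕ → ℂ),
    (∀ n ∈ s, 1 ≤ n ∧ |Real.log n - (∑ i ∈ S, (d i : ℝ)) / 20| ≤ 1 / 2 ∧ ‖b n‖ ≤ Real.exp (ε * Y) / n) ∧
    ∀ k : ℤ, ∏ i ∈ S, PF (zY Y) (ty i) (d i) k = DP s b k

/-- **DUA**: the duality step (from RT and PRD). `L` is a set of frequencies on which the factors outside `S` are small.
Proof. Let `S_u` be the sum over `k ∈ L`, `c_u = conj (S_u)/|S_u|` (`S_u ≠ 0`). With `R(k) = ∑_{u ∈ U} c_u e^{iku}` and `P` the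
product over `S`: `|U| ρ ≤ ∑_u c_u S_u = ∑_{k ∈ L} f(k) EE(k) R(k) ≤ B ∑_{k ∈ L} |P(k) R(k)| ≤ B |L|^{1/2} (∑_{k ∈ FK K} |P R|²)^{1/2}`
where `B` bounds the product of the factors outside `S` on `L` (`|f| ≤ 1`). Insert RT with `M = e^{∑_S d_i/20}`, `A = e^{εY}`,
`s`, `b` from PRD. -/
def S_DUA : Prop := ∀ ε : ℝ, 0 < ε → ∃ C Y₀ : ℝ, 1 ≤ C ∧ ∀ Y : ℝ, Y₀ ≤ Y → ∀ d ∈ DY Y, ∀ S : Finset (Fin 10),
  ∀ (K : ℕ) (v ρ B : ℝ) (U : Finset ℝ) (L : Finset ℤ) (f : ℤ → ℝ), 1 ≤ K → 0 < ρ → 0 ≤ B → L ⊆ FK K →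
  (∀ u ∈ U, v ≤ u ∧ u ≤ v + 1) → (∀ u ∈ U, ∀ u' ∈ U, u ≠ u' → 1 / (3 * (K : ℝ)) ≤ |u - u'|) → (∀ k ∈ L, |f k| ≤ 1) →
  (∀ k ∈ L, ‖∏ i ∈ Sᶜ, PF (zY Y) (ty i) (d i) k‖ ≤ B) →
  (∀ u ∈ U, ρ ≤ ‖∑ k ∈ L, ((f k : ℝ) : ℂ) * Complex.exp (((k : ℝ) * u : ℝ) * Complex.I) * EE (zY Y) d k‖) →
  ((U.card : ℝ) * ρ) ^ 2 ≤ B ^ 2 * L.card * (C * (K : ℝ) ^ ε * Real.exp (2 * ε * Y) *
    ((U.card : ℝ) ^ 2 + K * U.card * Real.exp (-((∑ i ∈ S, (d i : ℝ)) / 20)) +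
      (U.card : ℝ) ^ (7 / 4 : ℝ) * (K : ℝ) ^ (3 / 4 : ℝ) * Real.exp (-((∑ i ∈ S, (d i : ℝ)) / 20))))

/-- **MAIN2** (from TUP, FE, CLS, NEAR2, LSD, TRI, DUA; adapt the proof of `S_MAIN` in `Pool/Agent/Q278/KS/Main.lean`). Proof. As
for `S_MAIN` with these changes. `K ≤ 2 L₀ e^{(lam0 + η)Y} ≤ e^{0.82 Y}`, `h ≥ e^{(1 - 13/16 - η)Y} ≥ e^{0.15 Y}` (`θ = 0.15` in FE),
NEAR2 in place of NEAR, `η ≤ 1/1000`. In case (3), `FAR2` (with `(ε₃/2, ε₀/2)`, giving `ε', η₁`) gives `R` with `|L| ≤ e^{RY}` and `Alt lam0 e0 (-η₁)`.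
First and second alternative: as before (`|L| ≤ e^{(κ - η₁)Y}`, `|L| ≤ e^{(2κ + e0 - lam0 - η₁)Y}`). Third: let `S` be as in `Win`,
`κ_N = ∑_{i ∉ S} κ_i`, `g = R - 2 κ_N ≤ -η₁`, `μ = ∑_S d_i/(20 Y)`. Apply DUA with a small `ε` (`4ε ≤ η₁/8`),
`B = (50 Y)^{10} e^{-κ_N Y}` and `v = Y - 2/5` (`u = log (y + h/2) ∈ [Y - 2/5, Y + 3/5]`; the separation of the points is `h/(3 e^Y) ≥ 1/(3K)`
since `K ≥ L₀ e^Y/h ≥ e^Y / h`): with `N = |U'|`, `(N ρ)² ≤ Y^C e^{(g + 4ε)Y} (N² + K N e^{-μY} + N^{7/4} K^{3/4} e^{-μY})`. As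
`g + 4ε ≤ -η₁/2` the first term is at most `(Nρ)²/2` for large `Y`, so `N ≤ Y^{C} e^{(g + 4ε + lam0 + η - μ)Y}` or
`N^{1/4} ≤ Y^C e^{(g + 4ε + (3/4)(lam0 + η) - μ)Y}`; both give `N ≤ e^{(e0 - η₁/4)Y}` by `Win` (`η ≤ η₁/32`; in the second case the exponent
is `4 (g + (3/4) lam0 - μ) + 16 ε + 3η ≤ e0 - η₁ + 16ε + 3η`). -/
def S_MAIN2 : Prop := ∀ lam0 e0 : ℝ, 0 < lam0 → lam0 ≤ 13 / 16 → FAR2 lam0 e0 → MAINP lam0 e0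

end Pool.Agent.Q278.KT
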